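import Mathlib

set_option autoImplicit false

namespace Pool.Agent.Results.MP_78fb5d_an.NotConvex

open Finset

/-- `T` is a tiling complement of `E`. -/
def Tiles {M : ℕ} (E T : Finset (ZMod M)) : Prop :=
  ∀ x : ZMod M, ∃! p : ZMod M × ZMod M, p.1 ∈ E ∧ p.2 ∈ T ∧ x = p.1 + p.2

/-- `μ` is a non-negative weak tiling measure for `E`. -/
def WeakTiling {M : ℕ} [NeZero M] (E : Finset (ZMod M)) (μ : ZMod M → ℝ) : Prop :=
  (∀ x, 0 ≤ μ x) ∧ ∀ x, ∑ y, (if x - y ∈ E then 1 else 0) * μ y = 1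

def E0 : Finset (ZMod 24) := {0, 4, 6, 10}

def m0 (x : ZMod 24) : ℕ :=
  if x ∈ ({0, 8, 16} : Finset (ZMod 24)) then 2
  else if x ∈ ({1, 3, 5, 13, 15, 17} : Finset (ZMod 24)) then 1 else 0

lemma m0_sum : ∀ x : ZMod 24, ∑ y, (if x - y ∈ E0 then 1 else 0) * m0 y = 2 := by
  decide +kernel

lemma tiles0 : Tiles E0 {0, 8, 16, 1, 9, 17} := by
  have h1 : ∀ x : ZMod 24, ∃ p : ZMod 24 × ZMod 24, p.1 ∈ E0 ∧
      p.2 ∈ ({0, 8, 16, 1, 9, 17} : Finset (ZMod 24)) ∧ x = p.1 + p.2 := by decide +kernel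
  have h2 : ∀ a ∈ E0, ∀ b ∈ ({0, 8, 16, 1, 9, 17} : Finset (ZMod 24)), ∀ c ∈ E0,
      ∀ d ∈ ({0, 8, 16, 1, 9, 17} : Finset (ZMod 24)), a + b = c + d → a = c ∧ b = d := by
    decide +kernel
  intro x
  obtain ⟨p, hp⟩ := h1 x
  refine ⟨p, hp, fun q hq => ?_⟩
  have := h2 _ hq.1 _ hq.2.1 _ hp.1 _ hp.2.1 (hq.2.2.symm.trans hp.2.2)
  exact Prod.ext this.1 this.2

lemma forced {T : Finset (ZMod 24)} (h : Tiles E0 T) (h1 : 1 ∈ T) : 9 ∈ T := by
  obtain ⟨⟨e, t⟩, ⟨he, ht, hx⟩, -⟩ := h 9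
  simp only at he ht hx
  have key : ∀ (a b c d : ZMod 24), a ∈ E0 → b ∈ T → c ∈ E0 → d ∈ T → a + b = c + d → a = c := by
    intro a b c d ha hb hc hd habcd
    have := (h (a + b)).unique (y₁ := (a, b)) (y₂ := (c, d)) ⟨ha, hb, rfl⟩ ⟨hc, hd, habcd⟩
    exact congrArg Prod.fst this
  have ht' : t = 9 - e := by rw [hx]; ring
  simp only [E0, mem_insert, mem_singleton] at he
  rcases he with rfl | rfl | rfl | rfl
  · rw [ht'] at ht; exact ht
  · rw [ht'] at ht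
    exact absurd (key 0 _ 4 1 (by decide) ht (by decide) h1 (by decide)) (by decide)
  · rw [ht'] at ht
    exact absurd (key 4 _ 6 1 (by decide) ht (by decide) h1 (by decide)) (by decide)
  · rw [ht'] at ht
    exact absurd (key 6 _ 4 1 (by decide) ht (by decide) h1 (by decide)) (by decide)

theorem result : ∃ (E : Finset (ZMod 24)) (μ : ZMod 24 → ℝ),
    (∃ T, Tiles E T) ∧ WeakTiling E μ ∧ μ 0 = 1 ∧
    ¬ ∃ (N : ℕ) (T : Fin N → Finset (ZMod 24)) (c : Fin N → ℝ),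
      (∀ k, Tiles E (T k)) ∧ (∀ k, 0 ≤ c k) ∧ ∑ k, c k = 1 ∧
      ∀ x, μ x = ∑ k, c k * (if x ∈ T k then 1 else 0) := by
  refine ⟨E0, fun x => (m0 x : ℝ) / 2, ⟨_, tiles0⟩, ⟨fun x => by positivity, fun x => ?_⟩, ?_, ?_⟩
  · have := congrArg (fun n : ℕ => (n : ℝ)) (m0_sum x)
    push_cast at this
    simp only [← mul_div_assoc]
    rw [← sum_div, this]; norm_num
  · have : m0 0 = 2 := by decide
    simp [this]
  · rintro ⟨N, T, c, hT, hc, -, hμ⟩
    have a1 : m0 1 = 1 := by decide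
    have a9 : m0 9 = 0 := by decide
    have h1 := hμ 1
    have h9 := hμ 9
    simp only [a1, a9] at h1 h9
    have : ∑ k, c k * (if (1 : ZMod 24) ∈ T k then 1 else 0) ≤
        ∑ k, c k * (if (9 : ZMod 24) ∈ T k then 1 else 0) := by
      refine sum_le_sum fun k _ => mul_le_mul_of_nonneg_left ?_ (hc k)
      by_cases h : (1 : ZMod 24) ∈ T k
      · simp [h, forced (hT k) h]
      · simp only [h, if_false]; split_ifs <;> norm_num
    rw [← h1, ← h9] at this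
    norm_num at this

end Pool.Agent.Results.MP_78fb5d_an.NotConvex
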